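import Mathlib

set_option autoImplicit false

/-!
# A non-classical symmetric net with a group transitive on joined pairs and on non-joined pairs

The net is the symmetric (3,2)-net on 18 points which belongs to the generalized Hadamard matrix of
order 6 over the group of order 3.
-/

namespace Pool.Agent.Results.MP_36fbc5_co.SymmetricNetPairs

/-- `IsNet V B I s r μ`: the incidence structure with point set `V`, block set `B` and incidence
relation `I` is an `(s, r, μ)`-net. There are `s² μ` points, blocks are determined by their point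
sets, each block has `s μ` points, the blocks are divided into `r` (nonempty) parallel classes,
given by the map `cls` onto `Fin r`, each of which is a partition of the point set, and two blocks
from different parallel classes meet in exactly `μ` points. -/
def IsNet (V B : Type) (I : V → B → Prop) (s r μ : ℕ) : Prop :=
  Nat.card V = s ^ 2 * μ ∧
  (∀ b b' : B, {p | I p b} = {p | I p b'} → b = b') ∧
  (∀ b : B, {p | I p b}.ncard = s * μ) ∧
  ∃ cls : B → Fin r, Function.Surjective cls ∧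
    (∀ (c : Fin r) (p : V), ∃! b : B, cls b = c ∧ I p b) ∧
    ∀ b b' : B, cls b ≠ cls b' → {p | I p b ∧ I p b'}.ncard = μ

/-- A symmetric `(s, μ)`-net: an `(s, sμ, μ)`-net whose dual structure is an `(s, sμ, μ)`-net. -/
def IsSymmetricNet (V B : Type) (I : V → B → Prop) (s μ : ℕ) : Prop :=
  IsNet V B I s (s * μ) μ ∧ IsNet B V (fun b p => I p b) s (s * μ) μ

/-- Two points are joined if some block contains both. -/
def Joined {V B : Type} (I : V → B → Prop) (p q : V) : Prop := ∃ b, I p b ∧ I q b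

/-- An automorphism: a permutation of the points which maps blocks to blocks. -/
def IsAut {V B : Type} (I : V → B → Prop) (g : Equiv.Perm V) : Prop :=
  ∀ b : B, ∃ b' : B, g '' {p | I p b} = {p | I p b'}

/-- The group `G` is transitive on the unordered pairs of distinct points with property `R`. -/
def PairTransitive {V : Type} (G : Subgroup (Equiv.Perm V)) (R : V → V → Prop) : Prop :=
  ∀ p q p' q' : V, p ≠ q → p' ≠ q' → R p q → R p' q' →
    ∃ g ∈ G, (g p = p' ∧ g q = q') ∨ (g p = q' ∧ g q = p')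

/-- The blocks of a classical symmetric net: the hyperplanes of the affine space `AG(d, q)` (over
the field `F` with `q` elements) which are not parallel to the line `ℓ`. -/
def ClassicalBlock (F : Type) [Field F] (d : ℕ) (ℓ : AffineSubspace F (Fin d → F)) : Type :=
  {H : AffineSubspace F (Fin d → F) // (H : Set (Fin d → F)).Nonempty ∧
    Module.finrank F H.direction + 1 = d ∧ ¬ ℓ.direction ≤ H.direction}

/-- A symmetric net is classical if, for some finite field `F`, some `d ≥ 2` and some line `ℓ` of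
`AG(d, q)`, it is isomorphic to the structure formed by the points of `AG(d, q)` and the
hyperplanes not parallel to `ℓ`. -/
def IsClassical (V B : Type) (I : V → B → Prop) : Prop :=
  ∃ (F : Type) (_ : Field F) (_ : Finite F) (d : ℕ) (ℓ : AffineSubspace F (Fin d → F)),
    2 ≤ d ∧ (ℓ : Set (Fin d → F)).Nonempty ∧ Module.finrank F ℓ.direction = 1 ∧
    ∃ (f : V ≃ (Fin d → F)) (g : B ≃ ClassicalBlock F d ℓ),
      ∀ (p : V) (b : B), I p b ↔ f p ∈ (g b).1

/-! ### The net -/

/-- The generalized Hadamard matrix of order 6 over the group of order 3 (written additively). -/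
def H6 : Fin 6 → Fin 6 → ZMod 3 :=
  ![![0, 0, 0, 0, 0, 0],
    ![0, 0, 1, 1, 2, 2],
    ![0, 1, 0, 2, 1, 2],
    ![0, 1, 2, 0, 2, 1],
    ![0, 2, 1, 2, 0, 1],
    ![0, 2, 2, 1, 1, 0]]

/-- Points and blocks are pairs of a row (column) number and an element of the group of order 3. -/
abbrev Pt := Fin 6 × ZMod 3

/-- Incidence. -/
def inc (p b : Pt) : Prop := H6 p.1 b.1 + p.2 = b.2

instance (p b : Pt) : Decidable (inc p b) := by unfold inc; infer_instance

theorem net1 : IsNet Pt Pt inc 3 6 2 := by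
  refine ⟨?_, ?_, ?_, fun b => b.1, ?_, ?_, ?_⟩
  · rw [Nat.card_eq_fintype_card]; decide +kernel
  · have key : ∀ b b' : Pt, (∀ p, inc p b ↔ inc p b') → b = b' := by decide +kernel
    intro b b' h
    exact key b b' fun p => by
      have := congrArg (fun S => p ∈ S) h
      simpa using this
  · intro b
    rw [Set.ncard_eq_toFinset_card']
    revert b; decide +kernel
  · intro c; exact ⟨(c, 0), rfl⟩
  · intro c p
    refine ⟨(c, H6 p.1 c + p.2), ⟨rfl, rfl⟩, ?_⟩
    rintro ⟨c', h⟩ ⟨h1, h2⟩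
    simp only at h1
    subst h1
    exact Prod.ext rfl h2.symm
  · intro b b'
    rw [Set.ncard_eq_toFinset_card']
    revert b b'; decide +kernel

theorem net2 : IsNet Pt Pt (fun b p => inc p b) 3 6 2 := by
  refine ⟨?_, ?_, ?_, fun b => b.1, ?_, ?_, ?_⟩
  · rw [Nat.card_eq_fintype_card]; decide +kernel
  · have key : ∀ b b' : Pt, (∀ p, inc b p ↔ inc b' p) → b = b' := by decide +kernel
    intro b b' h
    exact key b b' fun p => by
      have := congrArg (fun S => p ∈ S) h
      simpa using this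
  · intro b
    rw [Set.ncard_eq_toFinset_card']
    revert b; decide +kernel
  · intro c; exact ⟨(c, 0), rfl⟩
  · intro c p
    refine ⟨(c, p.2 - H6 c p.1), ⟨rfl, ?_⟩, ?_⟩
    · change H6 c p.1 + (p.2 - H6 c p.1) = p.2
      ring
    rintro ⟨c', h⟩ ⟨h1, h2⟩
    simp only at h1
    subst h1
    refine Prod.ext rfl ?_
    have h3 : H6 c' p.1 + h = p.2 := h2
    change h = p.2 - H6 c' p.1
    rw [← h3]; ring
  · intro b b'
    rw [Set.ncard_eq_toFinset_card']
    revert b b'; decide +kernel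

/-! ### The group -/

/-- The full automorphism group, with a decidable description. -/
def G : Subgroup (Equiv.Perm Pt) where
  carrier := {g | (∀ b, ∃ b', ∀ p, inc p b ↔ inc (g p) b') ∧
    (∀ b, ∃ b', ∀ p, inc p b ↔ inc (g⁻¹ p) b')}
  one_mem' := ⟨fun b => ⟨b, fun _ => Iff.rfl⟩, fun b => ⟨b, fun _ => Iff.rfl⟩⟩
  mul_mem' := by
    rintro g h ⟨g1, g2⟩ ⟨h1, h2⟩
    constructor
    · intro b
      obtain ⟨b1, e1⟩ := h1 b
      obtain ⟨b2, e2⟩ := g1 b1
      exact ⟨b2, fun p => (e1 p).trans (e2 (h p))⟩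
    · intro b
      obtain ⟨b1, e1⟩ := g2 b
      obtain ⟨b2, e2⟩ := h2 b1
      refine ⟨b2, fun p => ?_⟩
      rw [mul_inv_rev]
      exact (e1 p).trans (e2 (g⁻¹ p))
  inv_mem' := by
    rintro g ⟨g1, g2⟩
    exact ⟨g2, by rwa [inv_inv]⟩

theorem G_aut (g : Equiv.Perm Pt) (hg : g ∈ G) : IsAut inc g := by
  intro b
  obtain ⟨b', h⟩ := hg.1 b
  refine ⟨b', ?_⟩
  ext q
  constructor
  · rintro ⟨p, hp, rfl⟩
    exact (h p).1 hp
  · intro hq
    refine ⟨g.symm q, (h _).2 ?_, by simp⟩
    simpa using hq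

def fa (p : Pt) : Pt := (![3, 4, 5, 1, 0, 2] p.1, p.2 + ![1, 0, 0, 2, 2, 1] p.1)
def fai (p : Pt) : Pt := (![4, 3, 5, 0, 1, 2] p.1, p.2 + ![1, 1, 2, 2, 0, 0] p.1)
def fb (p : Pt) : Pt := (![4, 3, 0, 2, 1, 5] p.1, p.2 + ![0, 1, 0, 2, 1, 2] p.1)
def fbi (p : Pt) : Pt := (![2, 4, 3, 1, 0, 5] p.1, p.2 + ![0, 2, 1, 2, 0, 1] p.1)

def pa : Equiv.Perm Pt := ⟨fa, fai, by unfold Function.LeftInverse; decide +kernel,
  by unfold Function.RightInverse Function.LeftInverse; decide +kernel⟩
def pb : Equiv.Perm Pt := ⟨fb, fbi, by unfold Function.LeftInverse; decide +kernel,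
  by unfold Function.RightInverse Function.LeftInverse; decide +kernel⟩

theorem pa_mem : pa ∈ G := by
  constructor
  · change ∀ b, ∃ b', ∀ p, inc p b ↔ inc (fa p) b'
    decide +kernel
  · change ∀ b, ∃ b', ∀ p, inc p b ↔ inc (fai p) b'
    decide +kernel

theorem pb_mem : pb ∈ G := by
  constructor
  · change ∀ b, ∃ b', ∀ p, inc p b ↔ inc (fb p) b'
    decide +kernel
  · change ∀ b, ∃ b', ∀ p, inc p b ↔ inc (fbi p) b'
    decide +kernel

/-- The word in the generators coded by the binary digits of a number. -/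
def wact : ℕ → ℕ → Equiv.Perm Pt
  | 0, _ => 1
  | n + 1, v => if v ≤ 1 then 1 else (if v % 2 = 0 then pa else pb) * wact n (v / 2)

theorem wact_mem : ∀ n v, wact n v ∈ G
  | 0, _ => one_mem G
  | n + 1, v => by
    unfold wact
    split_ifs
    · exact one_mem G
    · exact mul_mem pa_mem (wact_mem n _)
    · exact mul_mem pb_mem (wact_mem n _)

/-- The same word as a function. -/
def wf : ℕ → ℕ → Pt → Pt
  | 0, _, p => p
  | n + 1, v, p => if v ≤ 1 then p else (if v % 2 = 0 then fa (wf n (v / 2) p)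
      else fb (wf n (v / 2) p))

theorem wact_eq : ∀ n v p, wact n v p = wf n v p
  | 0, _, _ => rfl
  | n + 1, v, p => by
    unfold wact wf
    split_ifs
    · rfl
    · rw [Equiv.Perm.mul_apply, wact_eq n]; rfl
    · rw [Equiv.Perm.mul_apply, wact_eq n]; rfl

def tab : List ℕ :=
   [0, 1, 0, 1, 188, 266, 68, 28, 292, 151, 39, 11, 120, 166, 280, 436, 488, 227,
    0, 0, 26, 26, 63, 66, 472, 186, 756, 383, 531, 211, 41, 501, 153, 116, 206, 276,
    6, 0, 0, 6, 72, 16, 268, 108, 249, 173, 131, 51, 440, 482, 371, 158, 46, 239,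
    74, 18, 4, 0, 4, 0, 27, 257, 67, 270, 110, 669, 156, 44, 178, 442, 473, 187,
    159, 47, 104, 0, 0, 7, 7, 73, 17, 70, 30, 294, 177, 115, 462, 122, 269, 109,
    258, 64, 24, 24, 0, 0, 107, 189, 118, 281, 121, 167, 461, 204, 692, 293, 69, 29,
    100, 344, 260, 19, 5, 75, 0, 5, 0, 179, 157, 45, 111, 154, 42, 113, 476, 273,
    20, 250, 76, 265, 105, 191, 0, 0, 20, 444, 616, 168, 31, 180, 71, 162, 452, 174,
    420, 633, 185, 65, 25, 86, 25, 0, 0, 124, 525, 205, 431, 522, 202, 119, 648, 279,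
    215, 379, 237, 262, 102, 346, 243, 316, 92, 0, 12, 0, 12, 129, 32, 139, 59, 498,
    55, 515, 135, 78, 22, 89, 221, 872, 541, 0, 0, 2, 2, 37, 9, 136, 56, 584,
    15, 147, 35, 925, 355, 231, 61, 232, 141, 15, 0, 0, 52, 95, 132, 539, 219, 245,
    88, 57, 312, 220, 241, 333, 79, 23, 303, 8, 3, 36, 0, 3, 0, 54, 455, 134,
    230, 373, 354, 60, 83, 140, 218, 244, 538, 133, 53, 94, 0, 0, 14, 14, 146, 34,
    408, 217, 499, 242, 334, 562, 58, 103, 138, 33, 13, 128, 13, 0, 0, 93, 378, 236,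
    308, 84, 222, 314, 90, 358, 81, 226, 87, 203, 200, 523, 38, 10, 125, 0, 10, 0,
    360, 142, 62, 345, 261, 101, 348, 324, 741, 43, 40, 155, 327, 210, 351, 0, 0, 40,
    163, 404, 175, 251, 77, 21, 401, 238, 407, 370, 629, 181, 130, 50, 172, 21, 0, 0]

def wd (p q : Pt) : ℕ := tab.getD (18 * (3 * p.1.val + p.2.val) + (3 * q.1.val + q.2.val)) 0

theorem joined_iff (p q : Pt) : Joined inc p q ↔ (p = q ∨ p.1 ≠ q.1) := by
  have : ∀ p q : Pt, (∃ b, inc p b ∧ inc q b) ↔ (p = q ∨ p.1 ≠ q.1) := by decide +kernel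
  exact this p q

theorem reach1 : ∀ p q : Pt, p.1 ≠ q.1 →
    wf 10 (wd p q) (0, 0) = p ∧ wf 10 (wd p q) (1, 0) = q := by
  decide +kernel

theorem reach2 : ∀ p q : Pt, p ≠ q → p.1 = q.1 →
    (wf 10 (wd p q) (0, 0) = p ∧ wf 10 (wd p q) (0, 1) = q) ∨
    (wf 10 (wd q p) (0, 0) = q ∧ wf 10 (wd q p) (0, 1) = p) := by
  decide +kernel

theorem inv_self' (g : Equiv.Perm Pt) (x : Pt) : g⁻¹ (g x) = x := g.symm_apply_apply x

theorem reach1' (p q : Pt) (h : p.1 ≠ q.1) : ∃ g ∈ G, g (0, 0) = p ∧ g (1, 0) = q := by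
  obtain ⟨a, b⟩ := reach1 p q h
  exact ⟨_, wact_mem 10 (wd p q), by rw [wact_eq]; exact a, by rw [wact_eq]; exact b⟩

theorem trans1 : PairTransitive G (Joined inc) := by
  intro p q p' q' hne hne' h h'
  rw [joined_iff] at h h'
  obtain ⟨g, hg, a1, a2⟩ := reach1' p q (h.resolve_left hne)
  obtain ⟨g', hg', b1, b2⟩ := reach1' p' q' (h'.resolve_left hne')
  refine ⟨g' * g⁻¹, mul_mem hg' (inv_mem hg), Or.inl ⟨?_, ?_⟩⟩
  · rw [Equiv.Perm.mul_apply, ← a1, inv_self', b1]
  · rw [Equiv.Perm.mul_apply, ← a2, inv_self', b2]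

theorem reach2' (p q : Pt) (hne : p ≠ q) (h : p.1 = q.1) : ∃ g ∈ G,
    (g (0, 0) = p ∧ g (0, 1) = q) ∨ (g (0, 0) = q ∧ g (0, 1) = p) := by
  rcases reach2 p q hne h with ⟨a, b⟩ | ⟨a, b⟩
  · exact ⟨_, wact_mem 10 (wd p q), Or.inl ⟨by rw [wact_eq]; exact a, by rw [wact_eq]; exact b⟩⟩
  · exact ⟨_, wact_mem 10 (wd q p), Or.inr ⟨by rw [wact_eq]; exact a, by rw [wact_eq]; exact b⟩⟩

theorem trans2 : PairTransitive G (fun p q => ¬ Joined inc p q) := by
  intro p q p' q' hne hne' h h'
  rw [joined_iff] at h h'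
  have h1 : p.1 = q.1 := by by_contra hh; exact h (Or.inr hh)
  have h1' : p'.1 = q'.1 := by by_contra hh; exact h' (Or.inr hh)
  obtain ⟨g, hg, e⟩ := reach2' p q hne h1
  obtain ⟨g', hg', e'⟩ := reach2' p' q' hne' h1'
  refine ⟨g' * g⁻¹, mul_mem hg' (inv_mem hg), ?_⟩
  rcases e with ⟨a, b⟩ | ⟨a, b⟩ <;> rcases e' with ⟨a', b'⟩ | ⟨a', b'⟩
  · left; constructor
    · rw [Equiv.Perm.mul_apply, ← a, inv_self', a']
    · rw [Equiv.Perm.mul_apply, ← b, inv_self', b']
  · right; constructor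
    · rw [Equiv.Perm.mul_apply, ← a, inv_self', a']
    · rw [Equiv.Perm.mul_apply, ← b, inv_self', b']
  · right; constructor
    · rw [Equiv.Perm.mul_apply, ← b, inv_self', b']
    · rw [Equiv.Perm.mul_apply, ← a, inv_self', a']
  · left; constructor
    · rw [Equiv.Perm.mul_apply, ← b, inv_self', b']
    · rw [Equiv.Perm.mul_apply, ← a, inv_self', a']

/-! ### The net is not classical -/

theorem not_classical : ¬ IsClassical Pt Pt inc := by
  rintro ⟨F, _, _, d, ℓ, hd, -, -, f, -⟩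
  have h1 : Nat.card Pt = 18 := by rw [Nat.card_eq_fintype_card]; decide +kernel
  have h2 : Nat.card (Fin d → F) = Nat.card F ^ d := by
    rw [Nat.card_fun]; simp
  have h3 : Nat.card F ^ d = 18 := by rw [← h2, ← Nat.card_congr f, h1]
  have h4 : 2 ≤ Nat.card F := Finite.one_lt_card
  have h5 : d < 5 := by
    by_contra hh
    have : 2 ^ 5 ≤ Nat.card F ^ d :=
      (Nat.pow_le_pow_right (by norm_num) (not_lt.1 hh)).trans (Nat.pow_le_pow_left h4 d)
    omega
  have h6 : Nat.card F < 5 := by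
    by_contra hh
    have : 5 ^ 2 ≤ Nat.card F ^ d :=
      (Nat.pow_le_pow_left (not_lt.1 hh) 2).trans (Nat.pow_le_pow_right (by omega) hd)
    omega
  interval_cases d <;> interval_cases (Nat.card F) <;> omega

/-- There is a symmetric net (with `s = 3` and `μ = 2`) which admits an automorphism group
transitive on the pairs of joined points and also transitive on the pairs of distinct non-joined
points, and which is not classical. -/
theorem result : ∃ (s μ : ℕ) (V B : Type) (I : V → B → Prop) (G : Subgroup (Equiv.Perm V)),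
    2 < s ∧ 1 < μ ∧ IsSymmetricNet V B I s μ ∧ (∀ g ∈ G, IsAut I g) ∧
    PairTransitive G (Joined I) ∧ PairTransitive G (fun p q => ¬ Joined I p q) ∧
    ¬ IsClassical V B I :=
  ⟨3, 2, Pt, Pt, inc, G, by norm_num, by norm_num, ⟨net1, net2⟩, G_aut, trans1, trans2,
    not_classical⟩

end Pool.Agent.Results.MP_36fbc5_co.SymmetricNetPairs
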